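import Pool.Agent.H88.LP.Defs

/-!
# LP-A: the lobes of `{|z^k - c| ≤ r}` are contained in small discs

PROOF of `cosh_lemma`. (1) Let `y ≥ 0`, `0 ≤ φ`, `cosh x₀ = cosh y cos φ ≥ 1`. With `P_j = cosh (j y) cos (j φ)`, `Q_j = sinh (j y) sin (j φ)`
(`P_j + i Q_j = cosh (j (y + i φ))`, so `P_{j+1} = 2 (P_1 P_j - Q_1 Q_j) - P_{j-1}`) and `d_j = cosh (j x₀) - P_j`: `d_0 = d_1 = 0` and
`d_{j+1} = 2 P_1 d_j - d_{j-1} + 2 Q_1 Q_j`. As `P_1 ≥ 1`, and `Q_1, Q_j ≥ 0` as long as `j φ ≤ π`: by induction `d_{j+1} ≥ d_j ≥ 0` for all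
`j` with `j φ ≤ π`. So `cosh (k y) cos (k φ) ≤ cosh (k x₀)` (if `(k-1) φ ≤ π`).
(2) Suppose `cosh x > cosh y cos φ`. If `cosh y cos φ ≥ 1`: take `x₀ ≥ 0` with `cosh x₀ = cosh y cos φ` (intermediate value theorem), then `|x| > x₀`,
so `cosh (k x) > cosh (k x₀) ≥ cosh (k y) cos (k φ)`, contradiction. If `cosh y cos φ < 1`: `cos φ > 0` (`φ ≤ π/2`; if `cos φ = 0` then `k = 1`
and the hypothesis reads `cosh x ≤ 0`, impossible), let `y' > y` with `cosh y' = 1/cos φ`. By (1) with `x₀ = 0`: `cosh (k y') cos (k φ) ≤ 1`.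
`cos (k φ) > 0` (otherwise the hypothesis says `cosh (k x) ≤ 0`), so `cosh (k y) cos (k φ) < cosh (k y') cos (k φ) ≤ 1 ≤ cosh (k x)`, contradiction.

PROOF of `lobe`. `w = z^k`, `re w ≥ c - r > 0`, `θ = arg w ∈ (-π/2, π/2)`, `s = ‖z‖ > 0`, `φ = θ/k`. `(s e^{iφ})^k = w = z^k`, so `ω = z/(s e^{iφ})` has `ω^k = 1` and
`z = ω s e^{iφ}`. With `a^k = c - r`, `b^k = c + r`, `m = (a+b)/2`, `ℓ = (b-a)/2`: `‖z - ω m‖² = s² - 2 s m cos φ + m²`, so the claim is
`s² + a b ≤ (a + b) s cos φ`. The hypothesis `‖w - c‖² ≤ r²` is `s^{2k} + a^k b^k ≤ (a^k + b^k) s^k cos (k φ)`. With `s = √(ab) e^x`, `b = √(ab) e^y`,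
`a = √(ab) e^{-y}`, `y > 0`: the hypothesis is `cosh (k x) ≤ cosh (k y) cos (k φ)` and the claim is `cosh x ≤ cosh y cos φ`: `cosh_lemma` (with `|φ|`).
-/

set_option autoImplicit false

open Polynomial Complex Set
open scoped Real ComplexConjugate

noncomputable section

namespace Pool.Agent.H88.LP

/-- the real and imaginary parts of `cosh (j (y + i φ))` and the comparison with `cosh (j x₀)` -/
theorem lpa_step {x₀ y φ : ℝ} (hy : 0 ≤ y) (h0 : 0 ≤ φ) (h : Real.cosh x₀ = Real.cosh y * Real.cos φ)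
    (k : ℕ) (hk : (k : ℝ) * φ ≤ π) :
    (0 ≤ Real.cosh (k * x₀) - Real.cosh (k * y) * Real.cos (k * φ)) ∧
    (Real.cosh (k * x₀) - Real.cosh (k * y) * Real.cos (k * φ) ≤
      Real.cosh ((k + 1 : ℕ) * x₀) - Real.cosh ((k + 1 : ℕ) * y) * Real.cos ((k + 1 : ℕ) * φ)) := by
  induction k with
  | zero =>
    constructor
    · simp
    · simp [h]
  | succ j ih =>
    have hj : (j : ℝ) * φ ≤ π := by
      push_cast at hk
      nlinarith
    obtain ⟨ih0, ih1⟩ := ih hj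
    have hrec1 : Real.cosh ((j + 1 + 1 : ℕ) * x₀) = 2 * Real.cosh x₀ * Real.cosh ((j + 1 : ℕ) * x₀) - Real.cosh (j * x₀) := by
      have e1 : ((j + 1 + 1 : ℕ) : ℝ) * x₀ = ((j + 1 : ℕ) : ℝ) * x₀ + x₀ := by push_cast; ring
      have e2 : (j : ℝ) * x₀ = ((j + 1 : ℕ) : ℝ) * x₀ - x₀ := by push_cast; ring
      rw [e1, e2, Real.cosh_add, Real.cosh_sub]; ring
    have hrec2 : Real.cosh ((j + 1 + 1 : ℕ) * y) * Real.cos ((j + 1 + 1 : ℕ) * φ) =
        2 * (Real.cosh y * Real.cos φ) * (Real.cosh ((j + 1 : ℕ) * y) * Real.cos ((j + 1 : ℕ) * φ))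
        - 2 * (Real.sinh y * Real.sin φ) * (Real.sinh ((j + 1 : ℕ) * y) * Real.sin ((j + 1 : ℕ) * φ))
        - Real.cosh (j * y) * Real.cos (j * φ) := by
      have e1 : ((j + 1 + 1 : ℕ) : ℝ) * y = ((j + 1 : ℕ) : ℝ) * y + y := by push_cast; ring
      have e2 : (j : ℝ) * y = ((j + 1 : ℕ) : ℝ) * y - y := by push_cast; ring
      have e3 : ((j + 1 + 1 : ℕ) : ℝ) * φ = ((j + 1 : ℕ) : ℝ) * φ + φ := by push_cast; ring
      have e4 : (j : ℝ) * φ = ((j + 1 : ℕ) : ℝ) * φ - φ := by push_cast; ring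
      rw [e1, e2, e3, e4, Real.cosh_add, Real.cosh_sub, Real.cos_add, Real.cos_sub]; ring
    have hc1 : 1 ≤ Real.cosh x₀ := Real.one_le_cosh x₀
    have hj1 : (0 : ℝ) ≤ ((j + 1 : ℕ) : ℝ) * φ := by positivity
    have hphi : φ ≤ π := by
      push_cast at hk
      have : (0 : ℝ) ≤ (j : ℝ) * φ := by positivity
      nlinarith
    have s1 : 0 ≤ Real.sin φ := Real.sin_nonneg_of_nonneg_of_le_pi h0 hphi
    have s2 : 0 ≤ Real.sin ((j + 1 : ℕ) * φ) := Real.sin_nonneg_of_nonneg_of_le_pi hj1 hk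
    have s3 : 0 ≤ Real.sinh y := Real.sinh_nonneg_iff.2 hy
    have s4 : 0 ≤ Real.sinh ((j + 1 : ℕ) * y) := Real.sinh_nonneg_iff.2 (by positivity)
    have hQ : 0 ≤ (Real.sinh y * Real.sin φ) * (Real.sinh ((j + 1 : ℕ) * y) * Real.sin ((j + 1 : ℕ) * φ)) := by
      positivity
    refine ⟨le_trans ih0 ih1, ?_⟩
    rw [hrec1, hrec2, ← h]
    have hd : 0 ≤ Real.cosh ((j + 1 : ℕ) * x₀) - Real.cosh ((j + 1 : ℕ) * y) * Real.cos ((j + 1 : ℕ) * φ) :=
      le_trans ih0 ih1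
    nlinarith [mul_nonneg (sub_nonneg.2 hc1) hd]

theorem lpa_cmp {x₀ y φ : ℝ} (hy : 0 ≤ y) (h0 : 0 ≤ φ) (h : Real.cosh x₀ = Real.cosh y * Real.cos φ)
    (k : ℕ) (hk : (k : ℝ) * φ ≤ π) :
    Real.cosh (k * y) * Real.cos (k * φ) ≤ Real.cosh (k * x₀) := by
  linarith [(lpa_step hy h0 h k hk).1]

/-- every number `≥ 1` is a value of `cosh` at a nonnegative point -/
theorem lpa_cosh_surj {t : ℝ} (ht : 1 ≤ t) : ∃ x : ℝ, 0 ≤ x ∧ Real.cosh x = t := by
  have hc : ContinuousOn Real.cosh (Icc 0 t) := Real.continuous_cosh.continuousOn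
  have h1 : Real.cosh 0 ≤ t := by simpa using ht
  have h2 : t ≤ Real.cosh t := by
    have h3 := Real.add_one_le_exp t
    have h4 : Real.cosh t = (Real.exp t + Real.exp (-t)) / 2 := Real.cosh_eq t
    have h5 := Real.one_le_cosh t
    have h6 : t ≤ Real.sinh t := Real.self_le_sinh_iff.2 (by linarith)
    have h7 : Real.sinh t < Real.cosh t := Real.sinh_lt_cosh t
    linarith
  obtain ⟨x, hx, hx'⟩ := intermediate_value_Icc (by linarith : (0 : ℝ) ≤ t) hc ⟨h1, h2⟩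
  exact ⟨x, hx.1, hx'⟩

theorem cosh_lemma {k : ℕ} (hk : 1 ≤ k) {x y φ : ℝ} (hy : 0 ≤ y) (h0 : 0 ≤ φ) (h1 : k * φ ≤ π / 2)
    (h : Real.cosh (k * x) ≤ Real.cosh (k * y) * Real.cos (k * φ)) :
    Real.cosh x ≤ Real.cosh y * Real.cos φ := by
  have hk1 : (1 : ℝ) ≤ k := by exact_mod_cast hk
  have hk0 : (0 : ℝ) < k := by linarith
  have hpi := Real.pi_pos
  have hkpi : (k : ℝ) * φ ≤ π := by linarith
  have hkφ : 0 ≤ (k : ℝ) * φ := by positivity
  have hφ : φ ≤ (k : ℝ) * φ := by nlinarith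
  by_contra hcon
  push Not at hcon
  by_cases hcase : 1 ≤ Real.cosh y * Real.cos φ
  · obtain ⟨x₀, hx₀, hx₀'⟩ := lpa_cosh_surj hcase
    have hlt : Real.cosh x₀ < Real.cosh x := by rw [hx₀']; exact hcon
    have habs : |x₀| < |x| := Real.cosh_lt_cosh.1 hlt
    have habs' : |(k : ℝ) * x₀| < |(k : ℝ) * x| := by
      rw [abs_mul, abs_mul]
      exact mul_lt_mul_of_pos_left habs (abs_pos.2 hk0.ne')
    have h3 := Real.cosh_lt_cosh.2 habs'
    have h4 := lpa_cmp hy h0 hx₀' k hkpi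
    linarith
  · push Not at hcase
    have hckpos : 0 < Real.cos (k * φ) := by
      have h5 : 0 < Real.cosh (k * x) := Real.cosh_pos _
      have h6 : 0 < Real.cosh (k * y) := Real.cosh_pos _
      by_contra hneg
      push Not at hneg
      nlinarith [mul_nonneg h6.le (neg_nonneg.2 hneg)]
    have hlt2 : (k : ℝ) * φ < π / 2 := by
      rcases h1.lt_or_eq with h7 | h7
      · exact h7
      · rw [h7, Real.cos_pi_div_two] at hckpos
        exact absurd hckpos (lt_irrefl _)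
    have hcpos : 0 < Real.cos φ := Real.cos_pos_of_mem_Ioo ⟨by linarith, by linarith⟩
    have hc1 : Real.cos φ ≤ 1 := Real.cos_le_one φ
    obtain ⟨y', hy', hy''⟩ := lpa_cosh_surj (t := 1 / Real.cos φ) (by rw [le_div_iff₀ hcpos]; linarith)
    have h8 : Real.cosh 0 = Real.cosh y' * Real.cos φ := by
      rw [hy'']; field_simp; simp
    have h9 := lpa_cmp hy' h0 h8 k hkpi
    have h10 : Real.cosh y < Real.cosh y' := by
      rw [hy'', lt_div_iff₀ hcpos]; exact hcase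
    have h11 : |y| < |y'| := Real.cosh_lt_cosh.1 h10
    have h12 : |(k : ℝ) * y| < |(k : ℝ) * y'| := by
      rw [abs_mul, abs_mul]
      exact mul_lt_mul_of_pos_left h11 (abs_pos.2 hk0.ne')
    have h13 := Real.cosh_lt_cosh.2 h12
    have h14 : Real.cosh (k * y) * Real.cos (k * φ) < Real.cosh (k * y') * Real.cos (k * φ) :=
      mul_lt_mul_of_pos_right h13 hckpos
    have h15 := Real.one_le_cosh (k * x)
    rw [mul_zero, Real.cosh_zero] at h9
    linarith

/-- the logarithmic form: `s ^ (2k) + a^k b^k ≤ (a^k + b^k) s^k cos (k φ)` implies the same for `k = 1` -/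
theorem lpa_real {k : ℕ} (hk : 1 ≤ k) {a b s φ : ℝ} (ha : 0 < a) (hab : a ≤ b) (hs : 0 < s)
    (h0 : 0 ≤ φ) (h1 : k * φ ≤ π / 2)
    (h : (s ^ k) ^ 2 + a ^ k * b ^ k ≤ (a ^ k + b ^ k) * (s ^ k * Real.cos (k * φ))) :
    s ^ 2 + a * b ≤ (a + b) * (s * Real.cos φ) := by
  have hb : 0 < b := lt_of_lt_of_le ha hab
  set la := Real.log a with hla
  set lb := Real.log b with hlb
  set ls := Real.log s with hls
  have ea : Real.exp la = a := Real.exp_log ha
  have eb : Real.exp lb = b := Real.exp_log hb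
  have es : Real.exp ls = s := Real.exp_log hs
  have hlab : la ≤ lb := Real.log_le_log ha hab
  set x := ls - (la + lb) / 2 with hx
  set y := (lb - la) / 2 with hy
  have hy0 : 0 ≤ y := by rw [hy]; linarith
  -- general identity: for every j
  have key : ∀ j : ℝ, Real.exp (j * ls) ^ 2 + Real.exp (j * la) * Real.exp (j * lb) =
      2 * (Real.exp (j * ls) * Real.exp (j * ((la + lb) / 2))) * Real.cosh (j * x) := by
    intro j
    rw [Real.cosh_eq]
    have e1 : Real.exp (j * ls) ^ 2 = Real.exp (j * ls) * Real.exp (j * ((la + lb) / 2)) * Real.exp (j * x) := by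
      have e3 : Real.exp (j * ((la + lb) / 2)) * Real.exp (j * x) = Real.exp (j * ls) := by
        rw [← Real.exp_add]; congr 1; rw [hx]; ring
      rw [mul_assoc, e3, sq]
    have e2 : Real.exp (j * la) * Real.exp (j * lb) =
        Real.exp (j * ls) * Real.exp (j * ((la + lb) / 2)) * Real.exp (-(j * x)) := by
      rw [← Real.exp_add, ← Real.exp_add, ← Real.exp_add]; congr 1; rw [hx]; ring
    rw [e1, e2]; ring
  have key2 : ∀ j : ℝ, Real.exp (j * la) + Real.exp (j * lb) =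
      2 * Real.exp (j * ((la + lb) / 2)) * Real.cosh (j * y) := by
    intro j
    rw [Real.cosh_eq]
    have e1 : Real.exp (j * lb) = Real.exp (j * ((la + lb) / 2)) * Real.exp (j * y) := by
      rw [← Real.exp_add]; congr 1; rw [hy]; ring
    have e2 : Real.exp (j * la) = Real.exp (j * ((la + lb) / 2)) * Real.exp (-(j * y)) := by
      rw [← Real.exp_add]; congr 1; rw [hy]; ring
    rw [e1, e2]; ring
  have pw : ∀ t : ℝ, ∀ l : ℝ, Real.exp l = t → t ^ k = Real.exp ((k : ℝ) * l) := by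
    intro t l hl
    rw [← hl, ← Real.exp_nat_mul]
  have hk' : Real.cosh (k * x) ≤ Real.cosh (k * y) * Real.cos (k * φ) := by
    rw [pw a la ea, pw b lb eb, pw s ls es, key, key2] at h
    have hpos : 0 < 2 * (Real.exp (k * ls) * Real.exp (k * ((la + lb) / 2))) := by positivity
    refine le_of_mul_le_mul_left ?_ hpos
    calc _ ≤ _ := h
      _ = _ := by ring
  have hfin := cosh_lemma hk hy0 h0 h1 hk'
  have k1 := key 1
  have k2 := key2 1
  simp only [one_mul, ea, eb, es] at k1 k2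
  rw [k1, k2]
  have hpos : 0 < 2 * (s * Real.exp ((la + lb) / 2)) := by positivity
  calc 2 * (s * Real.exp ((la + lb) / 2)) * Real.cosh x
      ≤ 2 * (s * Real.exp ((la + lb) / 2)) * (Real.cosh y * Real.cos φ) :=
        mul_le_mul_of_nonneg_left hfin hpos.le
    _ = _ := by ring

/-- if `‖z^k - c‖ ≤ r < c` then `z` lies in one of the discs with diameter `[ω a, ω b]`, `ω^k = 1`,
`a^k = c - r`, `b^k = c + r` -/
theorem lobe {k : ℕ} (hk : 1 ≤ k) {c r a b : ℝ} (hr : 0 < r) (hc : r < c) (ha : 0 ≤ a)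
    (hb : 0 ≤ b) (hak : a ^ k = c - r) (hbk : b ^ k = c + r) {z : ℂ} (hz : ‖z ^ k - c‖ ≤ r) :
    ∃ ω : ℂ, ω ^ k = 1 ∧ ‖z - ω * ((a + b) / 2 : ℝ)‖ ≤ (b - a) / 2 := by
  have hk0 : k ≠ 0 := by omega
  have hkR : (0 : ℝ) < k := by exact_mod_cast (by omega : 0 < k)
  have ha' : 0 < a := by
    rcases ha.lt_or_eq with h | h
    · exact h
    · rw [← h, zero_pow hk0] at hak; linarith
  have hab : a ≤ b := by
    by_contra hcon
    push Not at hcon
    have := pow_lt_pow_left₀ hcon hb hk0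
    rw [hak, hbk] at this; linarith
  set w := z ^ k with hw
  have hre : 0 < w.re := by
    have h1 : |(w - c).re| ≤ r := le_trans (Complex.abs_re_le_norm _) hz
    rw [Complex.sub_re, Complex.ofReal_re] at h1
    have := (abs_le.1 h1).1
    linarith
  have hz0 : z ≠ 0 := by
    rintro rfl
    rw [hw, zero_pow hk0, Complex.zero_re] at hre
    exact lt_irrefl _ hre
  have hw0 : w ≠ 0 := pow_ne_zero _ hz0
  set s := ‖z‖ with hs
  have hs0 : 0 < s := norm_pos_iff.2 hz0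
  have hwn : ‖w‖ = s ^ k := by rw [hw, norm_pow]
  set θ := Complex.arg w with hθ
  have hθabs : |θ| < π / 2 := Complex.abs_arg_lt_pi_div_two_iff.2 (Or.inl hre)
  have hwpol : w = (s ^ k : ℝ) * Complex.exp (θ * I) := by
    rw [← hwn]; exact (Complex.norm_mul_exp_arg_mul_I w).symm
  set φ := θ / k with hφ
  have hkφ : (k : ℝ) * φ = θ := by rw [hφ]; field_simp
  set e := Complex.exp (φ * I) with he
  have hek : e ^ k = Complex.exp (θ * I) := by
    rw [he, ← Complex.exp_nat_mul, ← hkφ]; congr 1; push_cast; ring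
  have he0 : e ≠ 0 := Complex.exp_ne_zero _
  have hsC : (s : ℂ) ≠ 0 := by exact_mod_cast hs0.ne'
  have hen : ‖e‖ = 1 := by rw [he]; exact Complex.norm_exp_ofReal_mul_I φ
  set ω := z / (s * e) with hω
  have hse : (s : ℂ) * e ≠ 0 := mul_ne_zero hsC he0
  have hωk : ω ^ k = 1 := by
    rw [hω, div_pow, mul_pow, hek, ← hw, hwpol]
    push_cast
    exact div_self (mul_ne_zero (pow_ne_zero _ hsC) (Complex.exp_ne_zero _))
  have hωn : ‖ω‖ = 1 := by
    rw [hω, norm_div, norm_mul, hen, Complex.norm_real, Real.norm_of_nonneg hs0.le, mul_one, ← hs]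
    exact div_self hs0.ne'
  refine ⟨ω, hωk, ?_⟩
  set m := (a + b) / 2 with hm
  have hzω : z = ω * (s * e) := by rw [hω]; field_simp
  have hn1 : ‖z - ω * (m : ℝ)‖ = ‖(s : ℂ) * e - m‖ := by
    rw [hzω, ← mul_sub, norm_mul, hωn, one_mul]
  have hcosabs : Real.cos (|φ|) = Real.cos φ := Real.cos_abs φ
  have habsk : (k : ℝ) * |φ| = |θ| := by
    rw [← hkφ, abs_mul, abs_of_pos hkR]
  have hcosk : Real.cos ((k : ℝ) * |φ|) = Real.cos θ := by rw [habsk, Real.cos_abs]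
  -- squared norms
  have sq1 : ∀ (S M : ℝ) (t : ℝ), ‖(S : ℂ) * Complex.exp (t * I) - M‖ ^ 2 = S ^ 2 - 2 * S * M * Real.cos t + M ^ 2 := by
    intro S M t
    rw [← Complex.normSq_eq_norm_sq, Complex.normSq_apply, Complex.exp_mul_I]
    simp only [Complex.sub_re, Complex.mul_re, Complex.ofReal_re, Complex.add_re, Complex.I_re, Complex.I_im,
      Complex.sub_im, Complex.mul_im, Complex.ofReal_im, Complex.add_im, ← Complex.ofReal_cos, ← Complex.ofReal_sin]
    have := Real.sin_sq_add_cos_sq t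
    ring_nf
    nlinarith [this]
  have hyp : (s ^ k) ^ 2 + a ^ k * b ^ k ≤ (a ^ k + b ^ k) * (s ^ k * Real.cos (k * |φ|)) := by
    have h1 : ‖w - c‖ ^ 2 ≤ r ^ 2 := pow_le_pow_left₀ (norm_nonneg _) hz 2
    rw [hwpol, sq1 (s ^ k) c θ] at h1
    rw [hcosk, hak, hbk]
    nlinarith [h1]
  have hfin := lpa_real hk ha' hab hs0 (abs_nonneg φ) (by rw [habsk]; exact hθabs.le) hyp
  rw [hcosabs] at hfin
  rw [hn1]
  have h2 : ‖(s : ℂ) * e - m‖ ^ 2 ≤ ((b - a) / 2) ^ 2 := by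
    rw [he, sq1 s m φ]
    rw [hm]
    nlinarith [hfin]
  exact le_of_sq_le_sq h2 (by linarith)

end Pool.Agent.H88.LP
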