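import Pool.Agent.H88.LP.Defs

/-!
# LP-B: the arithmetic lemma

PROOF of `alg`. If `a = 0` the first alternative holds (`2^(k-2) ≥ 1`). Let `a > 0`, and suppose that the first alternative fails:
`X^k < Z`, `Z := b^k - 2^(k-2) (b^k - a^k) = a^k - (2^(k-2) - 1) (b^k - a^k)`. Put `b = a (1+s)`, `s ≥ 0`, `δ = (k/2)(b - a) = (k/2) a s`,
`Y = b - δ = a (1 - (k/2 - 1) s)`. Bernoulli: `(1+s)^k - 1 ≥ k s`, so `Z ≤ a^k (1 - (2^(k-2) - 1) k s)`; as `Z > X^k ≥ 0` this gives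
`(2^(k-2) - 1) k s ≤ 1`; `k ≤ 2^(k-1)` gives `0 ≤ (k/2 - 1) ≤ 2^(k-2) - 1`, so `(k/2 - 1) s ≤ 1`, `Y ≥ 0`, and by Bernoulli
`Y^k ≥ a^k (1 - k (k/2 - 1) s) ≥ a^k (1 - (2^(k-2) - 1) k s) ≥ Z > X^k`, so `X < Y`. Since `x ↦ (x + δ)^k - x^k` is increasing for `x ≥ 0`,
`(X + δ)^k - X^k ≤ (Y + δ)^k - Y^k = b^k - Y^k ≤ b^k - Z = 2^(k-2) (b^k - a^k)`.
-/

set_option autoImplicit false

open Polynomial Complex Set
open scoped Real ComplexConjugate

noncomputable section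

namespace Pool.Agent.H88.LP

private theorem lpb_incr {x Y δ : ℝ} (hx : 0 ≤ x) (hxY : x ≤ Y) (hδ : 0 ≤ δ) (n : ℕ) :
    (x + δ) ^ n - x ^ n ≤ (Y + δ) ^ n - Y ^ n := by
  induction n with
  | zero => simp
  | succ n ih =>
    have h1 : 0 ≤ (x + δ) ^ n - x ^ n := by
      have := pow_le_pow_left₀ hx (by linarith : x ≤ x + δ) n
      linarith
    have h2 : x ^ n ≤ Y ^ n := pow_le_pow_left₀ hx hxY n
    have h3 : (x + δ) * ((x + δ) ^ n - x ^ n) ≤ (Y + δ) * ((Y + δ) ^ n - Y ^ n) :=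
      mul_le_mul (by linarith) ih h1 (by linarith)
    have h4 : δ * x ^ n ≤ δ * Y ^ n := mul_le_mul_of_nonneg_left h2 hδ
    have e1 : (x + δ) ^ (n + 1) - x ^ (n + 1) = (x + δ) * ((x + δ) ^ n - x ^ n) + δ * x ^ n := by
      ring
    have e2 : (Y + δ) ^ (n + 1) - Y ^ (n + 1) = (Y + δ) * ((Y + δ) ^ n - Y ^ n) + δ * Y ^ n := by
      ring
    rw [e1, e2]
    linarith

private theorem lpb_two_pow {k : ℕ} (hk : 2 ≤ k) : (k : ℝ) / 2 ≤ 2 ^ (k - 2) := by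
  obtain ⟨m, rfl⟩ := Nat.exists_eq_add_of_le hk
  have h : m + 2 ≤ 2 * 2 ^ m := by
    induction m with
    | zero => norm_num
    | succ n ih =>
      have := ih (by omega)
      have h2 : 1 ≤ 2 ^ n := Nat.one_le_two_pow
      rw [pow_succ]
      omega
  have h' : ((m : ℝ) + 2) ≤ 2 * 2 ^ m := by exact_mod_cast h
  have e : 2 + m - 2 = m := by omega
  rw [e]
  push_cast
  linarith

theorem alg {k : ℕ} (hk : 2 ≤ k) {a b x : ℝ} (ha : 0 ≤ a) (hab : a ≤ b) (hx : 0 ≤ x) :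
    b ^ k ≤ x ^ k + 2 ^ (k - 2) * (b ^ k - a ^ k) ∨
      (x + k / 2 * (b - a)) ^ k ≤ x ^ k + 2 ^ (k - 2) * (b ^ k - a ^ k) := by
  by_cases h1 : b ^ k ≤ x ^ k + 2 ^ (k - 2) * (b ^ k - a ^ k)
  · exact Or.inl h1
  right
  push Not at h1
  have hc2 : (k : ℝ) / 2 ≤ 2 ^ (k - 2) := lpb_two_pow hk
  set c : ℝ := 2 ^ (k - 2) with hc
  have hc1 : 1 ≤ c := one_le_pow₀ (by norm_num)
  have hxk : 0 ≤ x ^ k := pow_nonneg hx k
  have hb : 0 ≤ b := ha.trans hab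
  have hbk : 0 ≤ b ^ k := pow_nonneg hb k
  have hk2 : (2 : ℝ) ≤ (k : ℝ) := by exact_mod_cast hk
  rcases ha.eq_or_lt with h0 | h0
  · exfalso
    rw [← h0, zero_pow (by omega)] at h1
    nlinarith
  · have hak : 0 < a ^ k := pow_pos h0 k
    obtain ⟨s, hs⟩ : ∃ s, s = (b - a) / a := ⟨_, rfl⟩
    have hs0 : 0 ≤ s := by rw [hs]; exact div_nonneg (by linarith) ha
    have hbs : b = a * (1 + s) := by rw [hs]; field_simp; ring
    have hF1 : a ^ k * (1 + k * s) ≤ b ^ k := by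
      rw [hbs, mul_pow]
      exact mul_le_mul_of_nonneg_left (one_add_mul_le_pow (by linarith) k) hak.le
    -- Z ≤ a^k (1 - (c-1) k s)
    have hF2 : b ^ k - c * (b ^ k - a ^ k) ≤ a ^ k * (1 - (c - 1) * (k * s)) := by
      have h2 : (c - 1) * (a ^ k * (1 + k * s)) ≤ (c - 1) * b ^ k :=
        mul_le_mul_of_nonneg_left hF1 (by linarith)
      nlinarith
    have hZ : 0 < a ^ k * (1 - (c - 1) * (k * s)) := by linarith
    have hZ' : 0 < 1 - (c - 1) * (k * s) := pos_of_mul_pos_right hZ hak.le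
    have hks : s ≤ k * s := by nlinarith
    have hY1 : ((k : ℝ) / 2 - 1) * s ≤ (c - 1) * (k * s) := by
      apply mul_le_mul (by linarith) hks hs0 (by linarith)
    have hY2 : ((k : ℝ) / 2 - 1) * (k * s) ≤ (c - 1) * (k * s) :=
      mul_le_mul_of_nonneg_right (by linarith) (by nlinarith)
    obtain ⟨Y, hY⟩ : ∃ Y, Y = a * (1 + -(((k : ℝ) / 2 - 1) * s)) := ⟨_, rfl⟩
    have hY0 : 0 ≤ Y := by rw [hY]; exact mul_nonneg ha (by linarith)
    have hYk : a ^ k * (1 - (c - 1) * (k * s)) ≤ Y ^ k := by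
      have h2 : 1 + (k : ℝ) * (-(((k : ℝ) / 2 - 1) * s)) ≤ (1 + -(((k : ℝ) / 2 - 1) * s)) ^ k :=
        one_add_mul_le_pow (by linarith) k
      rw [hY, mul_pow]
      refine mul_le_mul_of_nonneg_left (le_trans ?_ h2) hak.le
      nlinarith
    have hxY : x ≤ Y := by
      apply le_of_lt
      apply lt_of_pow_lt_pow_left₀ k hY0
      linarith
    have hδ : 0 ≤ (k : ℝ) / 2 * (b - a) := mul_nonneg (by positivity) (by linarith)
    have hYb : Y + (k : ℝ) / 2 * (b - a) = b := by rw [hY, hbs]; ring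
    have hm := lpb_incr hx hxY hδ k
    rw [hYb] at hm
    linarith

end Pool.Agent.H88.LP
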