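import Pool.Agent.H88.LP.A
import Pool.Agent.H88.LP.B

/-!
# LP-C: pulling back disc covers by `z ↦ z^k`

PROOF of `FCov.union`: concatenate (`Fin.append`, `Fin.sum_univ_add`; see `Cov.union` in LE/IA.lean).

PROOF of `FCov.lobes`: `M ≠ 0`, `0 < R < ‖M‖`, `a^k = ‖M‖ - R`, `b^k = ‖M‖ + R`. Choose `ξ` with `ξ^k = M/‖M‖` (`‖ξ‖ = 1`). The discs with centres
`ξ e^{2πij/k} (a+b)/2`, `j < k`, and radius `(b-a)/2 > 0`: `‖z^k - M‖ ≤ R` gives `‖(z/ξ)^k - ‖M‖‖ ≤ R`, `lobe` gives `ω` with `ω^k = 1`, which is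
some `e^{2πij/k}` (`Complex.isPrimitiveRoot_exp`, `IsPrimitiveRoot.eq_pow_of_pow_eq_one`).

PROOF of `pull_fin` (`k ≥ 2`): induction on the number of elements of `J`. `J = ∅`: empty cover, `0`. Otherwise let `j ∈ J` have the largest
`‖M j‖ + R j =: b^k`, `S = ∑_{J} R`, `S' = S - R j`, `X = (2^(k-1) S')^(1/k)`. By induction `FCov` for `J \ {j}` with `X`. For every `z` in the set
`‖z‖^k ≤ ‖M i‖ + R i ≤ b^k`, so the set is contained in the closed disc `D(0, b)`.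
Case `‖M j‖ ≤ R j`: `b^k ≤ 2 R j ≤ 2^(k-1) S`: the single disc `D(0, b)`.
Case `R j < ‖M j‖`: `a^k = ‖M j‖ - R j`; `2^(k-2) (b^k - a^k) = 2^(k-1) R j`. `alg` (B) with `x = X`: either `b^k ≤ 2^(k-1) S`: the single disc `D(0, b)`; or
`(X + (k/2)(b-a))^k ≤ 2^(k-1) S`: the cover for `J \ {j}` and the `k` lobes of `j` (`FCov.lobes`), total `≤ X + k (b-a)/2`.

PROOF of `pull`: `k = 1` is clear, `k ≥ 2` from `pull_fin` with `J = univ`.
-/

set_option autoImplicit false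

open Polynomial Complex Set
open scoped Real ComplexConjugate

noncomputable section

namespace Pool.Agent.H88.LP

theorem FCov.mono {S S' : Set ℂ} {r r' : ℝ} (h : FCov S r) (hS : S' ⊆ S) (hr : r ≤ r') :
    FCov S' r' := by
  obtain ⟨m, M, R, h0, h1, h2⟩ := h
  exact ⟨m, M, R, h0, fun z hz => h1 z (hS hz), h2.trans hr⟩

theorem FCov.union {S S' : Set ℂ} {r r' : ℝ} (h : FCov S r) (h' : FCov S' r') :
    FCov (S ∪ S') (r + r') := by
  obtain ⟨m, M, R, h0, h1, h2⟩ := h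
  obtain ⟨m', M', R', h0', h1', h2'⟩ := h'
  refine ⟨m + m', Fin.append M M', Fin.append R R', ?_, ?_, ?_⟩
  · intro c
    refine Fin.addCases (fun i => ?_) (fun i => ?_) c
    · rw [Fin.append_left]; exact h0 i
    · rw [Fin.append_right]; exact h0' i
  · rintro z (hz | hz)
    · obtain ⟨c, hc⟩ := h1 z hz
      exact ⟨Fin.castAdd m' c, by rw [Fin.append_left, Fin.append_left]; exact hc⟩
    · obtain ⟨c, hc⟩ := h1' z hz
      exact ⟨Fin.natAdd m c, by rw [Fin.append_right, Fin.append_right]; exact hc⟩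
  · rw [Fin.sum_univ_add]
    simp only [Fin.append_left, Fin.append_right]
    exact add_le_add h2 h2'

/-- one disc -/
private theorem lpc_disc {S : Set ℂ} {b : ℝ} (hb : 0 < b) (h : ∀ z ∈ S, ‖z‖ ≤ b) : FCov S b := by
  refine ⟨1, fun _ => 0, fun _ => b, fun _ => hb, fun z hz => ⟨0, ?_⟩, by simp⟩
  simpa using h z hz

theorem FCov.lobes {k : ℕ} (hk : 1 ≤ k) {M : ℂ} {R a b : ℝ} (hR : 0 < R) (hM : R < ‖M‖)
    (ha : 0 ≤ a) (hb : 0 ≤ b) (hak : a ^ k = ‖M‖ - R) (hbk : b ^ k = ‖M‖ + R) :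
    FCov {z : ℂ | ‖z ^ k - M‖ ≤ R} (k * ((b - a) / 2)) := by
  have hk0 : k ≠ 0 := by omega
  have hM0 : 0 < ‖M‖ := hR.trans hM
  have hMC : (‖M‖ : ℂ) ≠ 0 := by exact_mod_cast hM0.ne'
  have hab : a < b := by
    by_contra hcon
    push Not at hcon
    have := pow_le_pow_left₀ hb hcon k
    rw [hak, hbk] at this
    linarith
  obtain ⟨ξ, hξ⟩ := IsAlgClosed.exists_pow_nat_eq (M / ‖M‖) (by omega : 0 < k)
  have hξn : ‖ξ‖ = 1 := by
    have h1 : ‖ξ‖ ^ k = 1 := by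
      rw [← norm_pow, hξ, norm_div, Complex.norm_real, Real.norm_of_nonneg hM0.le]
      exact div_self hM0.ne'
    exact (pow_eq_one_iff_of_nonneg (norm_nonneg _) hk0).1 h1
  have hξ0 : ξ ≠ 0 := by
    rintro rfl
    rw [norm_zero] at hξn
    exact zero_ne_one hξn
  have hprim := Complex.isPrimitiveRoot_exp k hk0
  refine ⟨k, fun j => ξ * (Complex.exp (2 * π * I / k) ^ (j : ℕ) * ((a + b) / 2 : ℝ)),
    fun _ => (b - a) / 2, fun _ => by linarith, fun z hz => ?_, ?_⟩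
  · have hz1 : ‖(z / ξ) ^ k - (‖M‖ : ℝ)‖ ≤ R := by
      have e1 : (z / ξ) ^ k - (‖M‖ : ℝ) = (z ^ k - M) / ξ ^ k := by
        rw [div_pow, hξ]
        field_simp
        have hM' : M ≠ 0 := norm_pos_iff.1 hM0
        field_simp
      rw [e1, norm_div, norm_pow, hξn, one_pow, div_one]
      exact hz
    obtain ⟨ω, hω, hω'⟩ := lobe hk hR hM ha hb hak hbk hz1
    have : NeZero k := ⟨hk0⟩
    obtain ⟨i, hi, hi'⟩ := hprim.eq_pow_of_pow_eq_one hω
    refine ⟨⟨i, hi⟩, ?_⟩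
    show ‖z - ξ * (Complex.exp (2 * π * I / k) ^ i * ((a + b) / 2 : ℝ))‖ ≤ (b - a) / 2
    rw [hi']
    have e2 : z - ξ * (ω * ((a + b) / 2 : ℝ)) = ξ * (z / ξ - ω * ((a + b) / 2 : ℝ)) := by
      field_simp
    rw [e2, norm_mul, hξn, one_mul]
    exact hω'
  · rw [Finset.sum_const, Finset.card_univ, Fintype.card_fin, nsmul_eq_mul]

/-- `(x ^ k) ^ (1/k) = x` -/
private theorem lpc_root {k : ℕ} (hk : k ≠ 0) {x : ℝ} (hx : 0 ≤ x) : (x ^ k) ^ ((1 : ℝ) / k) = x := by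
  rw [one_div]
  exact Real.pow_rpow_inv_natCast hx hk

private theorem lpc_root' {k : ℕ} (hk : k ≠ 0) {x : ℝ} (hx : 0 ≤ x) : (x ^ ((1 : ℝ) / k)) ^ k = x := by
  rw [one_div]
  exact Real.rpow_inv_natCast_pow hx hk

/-- `x ^ k ≤ y` gives `x ≤ y ^ (1/k)` -/
private theorem lpc_le {k : ℕ} (hk : k ≠ 0) {x y : ℝ} (hx : 0 ≤ x) (h : x ^ k ≤ y) :
    x ≤ y ^ ((1 : ℝ) / k) := by
  have h1 : (x ^ k) ^ ((1 : ℝ) / k) ≤ y ^ ((1 : ℝ) / k) :=
    Real.rpow_le_rpow (pow_nonneg hx k) h (by positivity)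
  rwa [lpc_root hk hx] at h1

theorem pull_fin {k : ℕ} (hk : 2 ≤ k) {m : ℕ} (M : Fin m → ℂ) (R : Fin m → ℝ)
    (hR : ∀ c, 0 < R c) (J : Finset (Fin m)) :
    FCov {z : ℂ | ∃ c ∈ J, ‖z ^ k - M c‖ ≤ R c}
      ((2 ^ (k - 1) * ∑ c ∈ J, R c) ^ ((1 : ℝ) / k)) := by
  have hk0 : k ≠ 0 := by omega
  obtain ⟨n, hn⟩ : ∃ n, J.card = n := ⟨_, rfl⟩
  induction n generalizing J with
  | zero =>
    rw [Finset.card_eq_zero] at hn
    subst hn
    refine ⟨0, Fin.elim0, Fin.elim0, fun c => c.elim0, ?_, ?_⟩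
    · rintro z ⟨c, hc, -⟩
      exact absurd hc (Finset.notMem_empty c)
    · rw [Finset.univ_eq_empty, Finset.sum_empty]
      exact Real.rpow_nonneg (by simp) _
  | succ n ih =>
    have hne : J.Nonempty := by
      rw [← Finset.card_pos, hn]
      exact Nat.succ_pos n
    obtain ⟨j, hj, hmax⟩ := Finset.exists_max_image J (fun c => ‖M c‖ + R c) hne
    have hcard : (J.erase j).card = n := by
      rw [Finset.card_erase_of_mem hj, hn]
      rfl
    have hih := ih (J.erase j) hcard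
    have hsum : R j + ∑ c ∈ J.erase j, R c = ∑ c ∈ J, R c := Finset.add_sum_erase J R hj
    set S := ∑ c ∈ J, R c with hS
    set S' := ∑ c ∈ J.erase j, R c with hS'
    have hS'0 : 0 ≤ S' := Finset.sum_nonneg fun c _ => (hR c).le
    have hRj := hR j
    have hMR : 0 < ‖M j‖ + R j := by
      have := norm_nonneg (M j)
      linarith
    set b : ℝ := (‖M j‖ + R j) ^ ((1 : ℝ) / k) with hb
    have hb0 : 0 < b := Real.rpow_pos_of_pos hMR _
    have hbk : b ^ k = ‖M j‖ + R j := lpc_root' hk0 hMR.le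
    have h2k : (1 : ℝ) ≤ 2 ^ (k - 2) := one_le_pow₀ (by norm_num)
    have hpow : (2 : ℝ) ^ (k - 1) = 2 * 2 ^ (k - 2) := by
      rw [← pow_succ']
      congr 1
      omega
    have hbig : FCov {z : ℂ | ∃ c ∈ J, ‖z ^ k - M c‖ ≤ R c} b := by
      refine lpc_disc hb0 ?_
      rintro z ⟨c, hc, hz⟩
      have h1 : ‖z‖ ^ k ≤ b ^ k := by
        rw [hbk, ← norm_pow]
        refine le_trans ?_ (hmax c hc)
        have h2 : ‖z ^ k‖ ≤ ‖z ^ k - M c‖ + ‖M c‖ := by
          have := norm_add_le (z ^ k - M c) (M c)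
          rwa [sub_add_cancel] at this
        linarith
      exact le_of_pow_le_pow_left₀ hk0 hb0.le h1
    rcases le_or_gt ‖M j‖ (R j) with hcase | hcase
    · refine hbig.mono (fun z hz => hz) (lpc_le hk0 hb0.le ?_)
      rw [hbk, hpow]
      have h3 : R j ≤ S := by linarith
      have h4 : S ≤ 2 ^ (k - 2) * S := by
        have : 0 ≤ S := by linarith
        nlinarith
      linarith
    · have hMR' : 0 ≤ ‖M j‖ - R j := by linarith
      set a : ℝ := (‖M j‖ - R j) ^ ((1 : ℝ) / k) with ha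
      have ha0 : 0 ≤ a := Real.rpow_nonneg hMR' _
      have hak : a ^ k = ‖M j‖ - R j := lpc_root' hk0 hMR'
      have hab : a ≤ b := by
        refine le_of_pow_le_pow_left₀ hk0 hb0.le ?_
        rw [hak, hbk]
        linarith
      set x : ℝ := (2 ^ (k - 1) * S') ^ ((1 : ℝ) / k) with hx
      have hxx : 0 ≤ 2 ^ (k - 1) * S' := by positivity
      have hx0 : 0 ≤ x := Real.rpow_nonneg hxx _
      have hxk : x ^ k = 2 ^ (k - 1) * S' := lpc_root' hk0 hxx
      have hrhs : x ^ k + 2 ^ (k - 2) * (b ^ k - a ^ k) = 2 ^ (k - 1) * S := by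
        rw [hxk, hbk, hak, ← hsum, hpow]
        ring
      rcases alg hk ha0 hab hx0 with h5 | h5
      · rw [hrhs] at h5
        exact hbig.mono (fun z hz => hz) (lpc_le hk0 hb0.le h5)
      · rw [hrhs] at h5
        have hl := FCov.lobes (by omega : 1 ≤ k) hRj hcase ha0 hb0.le hak hbk
        refine (hih.union hl).mono ?_ ?_
        · rintro z ⟨c, hc, hz⟩
          by_cases hcj : c = j
          · right
            rw [hcj] at hz
            exact hz
          · left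
            exact ⟨c, Finset.mem_erase.2 ⟨hcj, hc⟩, hz⟩
        · have h6 : 0 ≤ x + k / 2 * (b - a) :=
            add_nonneg hx0 (mul_nonneg (by positivity) (by linarith))
          have h7 := lpc_le hk0 h6 h5
          have h8 : x + (k : ℝ) * ((b - a) / 2) = x + k / 2 * (b - a) := by ring
          rw [h8]
          exact h7

theorem pull {k : ℕ} (hk : 1 ≤ k) {S : Set ℂ} {r : ℝ} (h : FCov S r) :
    FCov {z : ℂ | z ^ k ∈ S} ((2 ^ (k - 1) * r) ^ ((1 : ℝ) / k)) := by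
  rcases Nat.lt_or_ge k 2 with h1 | h1
  · have hk1 : k = 1 := by omega
    subst hk1
    refine h.mono (fun z hz => ?_) ?_
    · simpa using hz
    · simp
  · obtain ⟨m, M, R, h0, hc, h2⟩ := h
    refine (pull_fin h1 M R h0 Finset.univ).mono ?_ ?_
    · intro z hz
      obtain ⟨c, hc'⟩ := hc (z ^ k) hz
      exact ⟨c, Finset.mem_univ c, hc'⟩
    · refine Real.rpow_le_rpow ?_ ?_ (by positivity)
      · have : 0 ≤ ∑ c, R c := Finset.sum_nonneg fun c _ => (h0 c).le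
        positivity
      · exact mul_le_mul_of_nonneg_left h2 (by positivity)

end Pool.Agent.H88.LP
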