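import Pool.Agent.H88.LP.C
import Pool.Agent.H88.LE.ID

/-!
# LP-D: composition with unicritical polynomials

PROOF of `comp_cov`: `(f.comp ((X - C a)^k + C b)).eval z = f.eval ((z - a)^k + b)`. Translate the cover of `{|f| ≤ 1}` by `-b`, apply `pull`,
translate by `a` (`FCov.shift`).

PROOF of `tower_cov`: induction; `{|z - c| ≤ 1}` is one disc of radius `1 = 2^(1 - 1/1)`. Step: `n = natDegree f`, the composition has degree `n k`
and `(2^(k-1) 2^(1 - 1/n))^(1/k) = 2^(1 - 1/(n k))` (`Real.rpow_mul`, ..).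

PROOF of `sym_cov`: `cov_all` (LE/ID) gives `Cov (lem f 1) ρ` with `kap < ρ < 9/4`; add a small number to the radii: `FCov {|f| ≤ 1} (9/4)`; then `comp_cov` and
`(2^(k-1) (9/4))^(1/k) = 2 (9/8)^(1/k)`.

PROOF of `FCov.bdc`: index type `Fin m`.
-/

set_option autoImplicit false

open Polynomial Complex Set
open scoped Real ComplexConjugate

noncomputable section

namespace Pool.Agent.H88.LP

theorem FCov.shift {S : Set ℂ} {r : ℝ} (h : FCov S r) (c : ℂ) : FCov {z : ℂ | z + c ∈ S} r := by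
  obtain ⟨m, M, R, hR, hc, hs⟩ := h
  refine ⟨m, fun i => M i - c, R, hR, fun z hz => ?_, hs⟩
  obtain ⟨i, hi⟩ := hc (z + c) hz
  refine ⟨i, ?_⟩
  rw [show z - (M i - c) = z + c - M i by ring]
  exact hi

theorem comp_cov {f : ℂ[X]} {k : ℕ} (hk : 1 ≤ k) (a b : ℂ) {r : ℝ}
    (h : FCov {z : ℂ | ‖f.eval z‖ ≤ 1} r) :
    FCov {z : ℂ | ‖(f.comp ((X - C a) ^ k + C b)).eval z‖ ≤ 1}
      ((2 ^ (k - 1) * r) ^ ((1 : ℝ) / k)) := by
  refine ((pull hk (h.shift b)).shift (-a)).mono ?_ le_rfl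
  intro z hz
  simp only [mem_ofPred_eq, eval_comp, eval_add, eval_pow, eval_sub, eval_X, eval_C] at hz ⊢
  rw [← sub_eq_add_neg]
  exact hz

/-- compositions of the polynomials `z - c` and `(z - a)^k + b`, `k ≥ 1` -/
inductive Tower : ℂ[X] → Prop
  | base (c : ℂ) : Tower (X - C c)
  | comp (f : ℂ[X]) (k : ℕ) (a b : ℂ) (hk : 1 ≤ k) (hf : Tower f) :
      Tower (f.comp ((X - C a) ^ k + C b))

private lemma lpd_deg (k : ℕ) (a b : ℂ) : ((X - C a) ^ k + C b : ℂ[X]).natDegree = k := by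
  rw [natDegree_add_C, natDegree_pow, natDegree_X_sub_C, mul_one]

private lemma lpd_monic {k : ℕ} (hk : 1 ≤ k) (a b : ℂ) : ((X - C a) ^ k + C b : ℂ[X]).Monic := by
  refine Monic.add_of_left ((monic_X_sub_C a).pow k) ?_
  refine lt_of_le_of_lt degree_C_le ?_
  rw [degree_eq_natDegree ((monic_X_sub_C a).pow k).ne_zero, natDegree_pow, natDegree_X_sub_C,
    mul_one]
  exact_mod_cast hk

theorem Tower.deg {f : ℂ[X]} (hf : Tower f) : f.Monic ∧ f.natDegree ≠ 0 := by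
  induction hf with
  | base c => exact ⟨monic_X_sub_C c, by rw [natDegree_X_sub_C]; exact one_ne_zero⟩
  | comp f k a b hk hf ih =>
    have h1 : ((X - C a) ^ k + C b : ℂ[X]).natDegree ≠ 0 := by
      rw [lpd_deg]
      omega
    refine ⟨ih.1.comp (lpd_monic hk a b) h1, ?_⟩
    rw [natDegree_comp]
    exact Nat.mul_ne_zero ih.2 h1

private lemma lpd_base (c : ℂ) : FCov {z : ℂ | ‖(X - C c : ℂ[X]).eval z‖ ≤ 1} 1 := by
  refine ⟨1, fun _ => c, fun _ => 1, fun _ => one_pos, fun z hz => ⟨0, ?_⟩, by simp⟩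
  simpa using hz

private lemma lpd_pow {k n : ℕ} (hk : 1 ≤ k) (hn : n ≠ 0) :
    ((2 : ℝ) ^ (k - 1) * 2 ^ (1 - 1 / (n : ℝ))) ^ ((1 : ℝ) / k)
      = 2 ^ (1 - 1 / ((n * k : ℕ) : ℝ)) := by
  have hk0 : (k : ℝ) ≠ 0 := by
    have : k ≠ 0 := by omega
    exact_mod_cast this
  have hn0 : (n : ℝ) ≠ 0 := by exact_mod_cast hn
  rw [← Real.rpow_natCast, ← Real.rpow_add (by norm_num : (0 : ℝ) < 2),
    ← Real.rpow_mul (by norm_num : (0 : ℝ) ≤ 2)]
  congr 1
  rw [Nat.cast_sub hk, Nat.cast_one, Nat.cast_mul]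
  field_simp
  ring

theorem tower_cov {f : ℂ[X]} (hf : Tower f) :
    FCov {z : ℂ | ‖f.eval z‖ ≤ 1} (2 ^ (1 - 1 / (f.natDegree : ℝ))) := by
  induction hf with
  | base c =>
    rw [natDegree_X_sub_C]
    simpa using lpd_base c
  | comp f k a b hk hf ih =>
    have h1 := comp_cov hk a b ih
    rw [lpd_pow hk hf.deg.2] at h1
    rw [natDegree_comp, lpd_deg]
    exact h1

private lemma lpd_94 (f : ℂ[X]) (hf : f.Monic) (hn0 : f.natDegree ≠ 0) :
    FCov {z : ℂ | ‖f.eval z‖ ≤ 1} (9 / 4) := by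
  obtain ⟨m, M, R, hR, hcov, hsum⟩ :=
    Pool.Agent.H88.LE.cov_all f hf hn0 (9 / 4 - 1 / 2000) (by
      unfold Pool.Agent.H88.LE.kap
      norm_num)
  obtain ⟨ε, hε⟩ : ∃ ε : ℝ, ε = 1 / (2000 * ((m : ℝ) + 1)) := ⟨_, rfl⟩
  have hε0 : 0 < ε := by
    rw [hε]
    positivity
  refine ⟨m, M, fun c => R c + ε, fun c => ?_, fun z hz => ?_, ?_⟩
  · have := hR c
    linarith
  · obtain ⟨c, hcz⟩ := hcov z hz
    exact ⟨c, by linarith⟩
  · rw [Finset.sum_add_distrib, Finset.sum_const, nsmul_eq_mul]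
    have h2 : ((m : ℝ) + 1) * ε = 1 / 2000 := by
      rw [hε]
      field_simp
    have h3 : ((Finset.univ : Finset (Fin m)).card : ℝ) = m := by simp
    rw [h3]
    have h4 : (m : ℝ) * ε ≤ ((m : ℝ) + 1) * ε := by nlinarith
    linarith

theorem sym_cov (f : ℂ[X]) (hf : f.Monic) (hn0 : f.natDegree ≠ 0) {k : ℕ} (hk : 1 ≤ k) (a b : ℂ) :
    FCov {z : ℂ | ‖(f.comp ((X - C a) ^ k + C b)).eval z‖ ≤ 1}
      (2 * (9 / 8) ^ ((1 : ℝ) / k)) := by
  have h1 := comp_cov hk a b (lpd_94 f hf hn0)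
  have hk0 : k ≠ 0 := by omega
  have h2 : (2 : ℝ) ^ (k - 1) * (9 / 4) = 2 ^ k * (9 / 8) := by
    obtain ⟨j, rfl⟩ : ∃ j, k = j + 1 := ⟨k - 1, by omega⟩
    rw [Nat.add_sub_cancel, pow_succ]
    ring
  rw [h2, Real.mul_rpow (by positivity) (by norm_num), one_div,
    Real.pow_rpow_inv_natCast (by norm_num) hk0, ← one_div] at h1
  exact h1

open N460a421b in
theorem FCov.bdc {S : Set ℂ} {r : ℝ} (h : FCov S r) :
    ∃ (ι : Type) (_ : Fintype ι), Nonempty (BoundedDiscCover S r ι) := by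
  obtain ⟨m, M, R, hR, hcov, hsum⟩ := h
  refine ⟨Fin m, inferInstance, ⟨⟨M, R, ?_, ?_, ?_, hR⟩⟩⟩
  · intro z hz
    obtain ⟨c, hcz⟩ := hcov z hz
    refine mem_iUnion.2 ⟨c, ?_⟩
    rw [Metric.mem_closedBall, dist_eq_norm]
    exact hcz
  · exact (hasSum_fintype _).summable
  · rw [tsum_fintype]
    exact hsum

open N460a421b in
theorem FCov.of_bdc {S : Set ℂ} {r : ℝ} {ι : Type} [Fintype ι] (h : BoundedDiscCover S r ι) :
    FCov S r := by
  obtain ⟨M, R, hcov, _, hsum, hR⟩ := h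
  refine ⟨Fintype.card ι, fun i => M ((Fintype.equivFin ι).symm i),
    fun i => R ((Fintype.equivFin ι).symm i), fun i => hR _, fun z hz => ?_, ?_⟩
  · obtain ⟨c, hc⟩ := mem_iUnion.1 (hcov hz)
    refine ⟨Fintype.equivFin ι c, ?_⟩
    beta_reduce
    rw [Equiv.symm_apply_apply]
    rw [Metric.mem_closedBall, dist_eq_norm] at hc
    exact hc
  · rw [tsum_fintype] at hsum
    rw [Equiv.sum_comp (Fintype.equivFin ι).symm R]
    exact hsum

end Pool.Agent.H88.LP
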