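import Mathlib

/-!
# Project LP (MP_ff60c2_an): disc covers are inherited by composition with `(z - a)^k + b`

If `{|f| ≤ 1}` has a finite disc cover of total radius `r`, then `{|f ((z-a)^k + b)| ≤ 1}` has a finite disc cover
of total radius `(2^(k-1) r)^(1/k)`; in particular the bound `2` is inherited.
-/

set_option autoImplicit false

open Polynomial Complex Set
open scoped Real ComplexConjugate

noncomputable section

namespace Pool.Agent.H88.LP

/-- `S` has a finite cover by closed discs of positive radii, of total radius at most `r` -/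
def FCov (S : Set ℂ) (r : ℝ) : Prop :=
  ∃ (m : ℕ) (M : Fin m → ℂ) (R : Fin m → ℝ), (∀ c, 0 < R c) ∧
    (∀ z ∈ S, ∃ c, ‖z - M c‖ ≤ R c) ∧ ∑ c, R c ≤ r

end Pool.Agent.H88.LP
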